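import Mathlib
import Pool.Agent.X80.Schrijver5
import Pool.Agent.X80.SchrijverBound

/-!
# The critical edges of the five-chromatic Schrijver graphs
-/

set_option autoImplicit false

namespace Pool.Agent.Results.MP_42f12b_co.DThree

open Pool.Agent.X80.SG

/-- The case `d = 3`, with threshold `k ≥ 9`: every interlacing edge of the Schrijver graph
`SG(2k+3,k)` is critical, deleting it lowers the chromatic number (to at most `4`). -/
theorem result (k : ℕ) (hk : 9 ≤ k) (V W : Vert (2 * k + 3) k)
    (hadj : (SG (2 * k + 3) k).Adj V W) (hint : Interlacing V.1 W.1) :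
    ((SG (2 * k + 3) k).deleteEdges {s(V, W)}).chromaticNumber <
        (SG (2 * k + 3) k).chromaticNumber ∧
      ((SG (2 * k + 3) k).deleteEdges {s(V, W)}).Colorable 4 := by
  have h := colorable_three hk rfl V W hadj hint
  rw [show 2 * k + 3 - 2 * k + 1 = 4 by omega] at h
  refine ⟨?_, h⟩
  by_contra hlt
  rw [not_lt] at hlt
  have h1 := SimpleGraph.chromaticNumber_le_iff_colorable.1 (hlt.trans h.chromaticNumber_le)
  have h2 := schrijver_le (n := 2 * k + 3) (k := k) (by omega) (by omega) (by omega) h1
  omega

end Pool.Agent.Results.MP_42f12b_co.DThree
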