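import Mathlib
import Pool.Agent.X80.Schrijver3
import Pool.Agent.X80.SchrijverBound

/-!
# Critical interlacing edges of Schrijver graphs
-/

set_option autoImplicit false

namespace Pool.Agent.Results.MP_42f12b_co.IsolatedInterlacing

open Pool.Agent.X80.SG

/-- Let `k ≥ d²`. Every interlacing edge `VW` of the Schrijver graph `SG(2k+d,k)` such that no two
cyclically consecutive elements lie outside `V ∪ W` is critical: deleting it lowers the chromatic
number (to at most `d + 1`). -/
theorem result (d k : ℕ) (hk : 1 ≤ k) (hn : 3 ≤ 2 * k + d) (hdk : d ^ 2 ≤ k)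
    (V W : Vert (2 * k + d) k) (hadj : (SG (2 * k + d) k).Adj V W)
    (hint : Interlacing V.1 W.1) (hiso : ∀ x, x ∉ V.1 ∪ W.1 → x + 1 ∈ V.1 ∪ W.1) :
    ((SG (2 * k + d) k).deleteEdges {s(V, W)}).chromaticNumber <
        (SG (2 * k + d) k).chromaticNumber ∧
      ((SG (2 * k + d) k).deleteEdges {s(V, W)}).Colorable (d + 1) := by
  have h := colorable_interlacing hn rfl hdk V W hadj hint hiso
  rw [show 2 * k + d - 2 * k + 1 = d + 1 by omega] at h
  refine ⟨?_, h⟩
  by_contra hlt
  rw [not_lt] at hlt
  have h1 := SimpleGraph.chromaticNumber_le_iff_colorable.1 (hlt.trans h.chromaticNumber_le)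
  have h2 := schrijver_le hn hk (by omega) h1
  omega

end Pool.Agent.Results.MP_42f12b_co.IsolatedInterlacing
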