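import Mathlib
import Pool.Agent.X80.Schrijver6
import Pool.Agent.X80.SchrijverBound

/-!
# Interlacing edges of Schrijver graphs with one long gap
-/

set_option autoImplicit false

namespace Pool.Agent.Results.MP_42f12b_co.OneLongGap

open Pool.Agent.X80.SG

/-- Let `d ≥ 1` and let `VW` be an interlacing edge of the Schrijver graph `SG(2k+d,k)` such that
the `r ≥ 2` elements `z, z + 1, …, z + r - 1` lie outside `V ∪ W`, every other element outside
`V ∪ W` has both neighbours in `V ∪ W`, and the `2d` elements directly after (or directly before)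
`z, …, z + r - 1` all lie in `V ∪ W`. Then `VW` is critical: deleting it lowers the chromatic
number (to at most `d + 1`). -/
theorem result (d k : ℕ) (hd : 1 ≤ d) (hk : 1 ≤ k) (V W : Vert (2 * k + d) k)
    (hadj : (SG (2 * k + d) k).Adj V W) (hint : Interlacing V.1 W.1)
    (z : ZMod (2 * k + d)) (r : ℕ) (hr : 2 ≤ r)
    (hrun : ∀ j : ℕ, j < r → z + (j : ZMod (2 * k + d)) ∉ V.1 ∪ W.1)
    (hiso : ∀ x, x ∉ V.1 ∪ W.1 → (∀ j : ℕ, j < r → x ≠ z + (j : ZMod (2 * k + d))) →
      x - 1 ∈ V.1 ∪ W.1 ∧ x + 1 ∈ V.1 ∪ W.1)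
    (hlong : (∀ s : ℕ, s < 2 * d →
        z + (r : ZMod (2 * k + d)) + (s : ZMod (2 * k + d)) ∈ V.1 ∪ W.1) ∨
      (∀ s : ℕ, s < 2 * d → z - 1 - (s : ZMod (2 * k + d)) ∈ V.1 ∪ W.1)) :
    ((SG (2 * k + d) k).deleteEdges {s(V, W)}).chromaticNumber <
        (SG (2 * k + d) k).chromaticNumber ∧
      ((SG (2 * k + d) k).deleteEdges {s(V, W)}).Colorable (d + 1) := by
  have hn : 3 ≤ 2 * k + d := by omega
  have h := colorable_oneGap hn hd rfl V W hadj hint z r (by omega) hrun hiso hlong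
  rw [show 2 * k + d - 2 * k + 1 = d + 1 by omega] at h
  refine ⟨?_, h⟩
  by_contra hlt
  rw [not_lt] at hlt
  have h1 := SimpleGraph.chromaticNumber_le_iff_colorable.1 (hlt.trans h.chromaticNumber_le)
  have h2 := schrijver_le hn hk (by omega) h1
  omega

end Pool.Agent.Results.MP_42f12b_co.OneLongGap
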